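import Pool.Agent.K6.H87.SP.Low
import Pool.Agent.K6.H87.SP.Ind
import Pool.Agent.K6.H87.SP.GEN
import Pool.Agent.K6.H87.SP.GRD
import Pool.Agent.K6.H87.SP.FIN
import Pool.Agent.K6.H87.SP.DEC
import Pool.Agent.K6.H87.SP.Fsy
import Pool.Agent.K6.H45.MU.Tors

/-!
# Symmetric powers and the conjecture on the `μ`-invariant of Iwasawa cohomology

`F` is the residue field of `R`, `Λ = R[[Γ]]`, `P = πΛ`, `Λ ⧸ P = F[[Γ]]`, and
`C : N ↦ H²_{Σ,Iw}(O_{L,S}, N)` is a right exact functor from the finite dimensional representations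
of `𝔊 = G_{L,S}` over `F` to the finitely generated `Λ ⧸ P`-modules. `A : 𝔊 → GL_n(F)` is the
representation `T/π`, `S` the subgroup of the elements which act as scalars, `D` its index, and `e`
the number of the scalars in the image of `A`; `I_i = Ind A _ _ i` is the representation of `𝔊`
induced from the character of `S`, the `i`-th power of the scalar, and `ρ_i` the rank of the value
of `C` at `I_i`. We write `X(j)` for a representation `X` on which the elements which act as the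
scalar `c` on `T/π` act as the scalar `c^j`.

* The rank of `C` at a successive extension `Y` of representations `X(i)` is at most `ρ_i dim Y`; if
  `ρ_i = 0`, then the conjecture holds for all lattices with the reduction `Y`.
* For all `X(j)` and `m ≥ D - 1`, `m + j ≡ i mod e`, the rank `r` at `X ⊗ Sym^m T` satisfies
  `dim X ⬝ binom(n + m - D, n - 1) ⬝ ρ_i ≤ D r` and
  `D r + (D - 1) ⬝ dim X ⬝ binom(n + m - D, n - 1) ⬝ ρ_i ≤ D ⬝ dim X ⬝ binom(n + m - 1, n - 1) ⬝ ρ_i`,
  so `r = (ρ_i / D) dim (X ⊗ Sym^m T) (1 + O(1 / m))`; if `ρ_i ≠ 0`, the conjecture is false for all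
  lattices with the reduction `X ⊗ Sym^m T`.
-/

set_option autoImplicit false

namespace Pool.Agent.Results.MP_519cc8_nt.SymmetricPowerGrowth

open Module Pool.Agent.K6.H45.MU Pool.Agent.K6.H87.SP

/-- The conjecture holds for the reduction `X`: the value at `X` has rank zero, and every finitely
generated `Λ`-module with the reduction `C.H X` is torsion with `μ = 0`. -/
def Holds {F : Type} [Field F] {𝔊 : Type} [Group 𝔊] [TopologicalSpace 𝔊] {Λ : Type} [CommRing Λ]
    (P : Ideal Λ) (C : Coh F 𝔊 (Λ ⧸ P)) (X : Rp F 𝔊) : Prop :=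
  C.rk X = 0 ∧ ∀ (M : Type) [AddCommGroup M] [Module Λ M] [Module.Finite Λ M],
    ((M ⧸ (P • ⊤ : Submodule Λ M)) ≃ₗ[Λ ⧸ P] C.H X) → TorsionMuZero P M

/-- The conjecture fails for the reduction `X`: the value at `X` has positive rank, and no finitely
generated `Λ`-module with the reduction `C.H X` is torsion with `μ = 0`. -/
def Fails {F : Type} [Field F] {𝔊 : Type} [Group 𝔊] [TopologicalSpace 𝔊] {Λ : Type} [CommRing Λ]
    (P : Ideal Λ) (C : Coh F 𝔊 (Λ ⧸ P)) (X : Rp F 𝔊) : Prop :=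
  C.rk X ≠ 0 ∧ ∀ (M : Type) [AddCommGroup M] [Module Λ M] [Module.Finite Λ M],
    ((M ⧸ (P • ⊤ : Submodule Λ M)) ≃ₗ[Λ ⧸ P] C.H X) → ¬ TorsionMuZero P M

/-- The elements which act on `T` as the scalar `c` act on `X` as the scalar `c ^ j`. -/
def Pure {F : Type} [Field F] {𝔊 : Type} [Group 𝔊] [TopologicalSpace 𝔊] {κ : Type} [Fintype κ]
    [DecidableEq κ] (A : 𝔊 →* Matrix κ κ F) (j : ℕ) (X : Rp F 𝔊) : Prop :=
  ∀ (g : 𝔊) (c : F), A g = c • (1 : Matrix κ κ F) → X.ρ g = c ^ j • (1 : X.N →ₗ[F] X.N)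

theorem result {F : Type} [Field F] [Finite F] {𝔊 : Type} [Group 𝔊] [TopologicalSpace 𝔊]
    [IsTopologicalGroup 𝔊] {Λ : Type} [CommRing Λ] (P : Ideal Λ) [P.IsPrime]
    (C : Coh F 𝔊 (Λ ⧸ P)) {κ : Type} [Fintype κ] [DecidableEq κ] [Nonempty κ]
    (A : 𝔊 →* Matrix κ κ F) (hA : IsOpen {g | A g = 1}) (i : ℕ) :
    (∀ X : Rp F 𝔊, Built A i X →
      C.rk X ≤ finrank F X.N * C.rk (Ind A hA (scal_index A) i) ∧
      (C.rk (Ind A hA (scal_index A) i) = 0 → Holds P C X)) ∧
    ∀ (j m : ℕ) (X : Rp F 𝔊), Pure A j X → (m + j) % Nat.card (sc A) = i % Nat.card (sc A) →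
      (scal A).index ≤ m + 1 →
      finrank F X.N * (Fintype.card κ + m - (scal A).index).choose (Fintype.card κ - 1) *
          C.rk (Ind A hA (scal_index A) i) ≤ (scal A).index * C.rk (tn X (sy A hA m)) ∧
      (scal A).index * C.rk (tn X (sy A hA m)) +
          ((scal A).index - 1) * finrank F X.N *
            (Fintype.card κ + m - (scal A).index).choose (Fintype.card κ - 1) *
            C.rk (Ind A hA (scal_index A) i) ≤
        (scal A).index * finrank F X.N *
          (Fintype.card κ + m - 1).choose (Fintype.card κ - 1) *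
          C.rk (Ind A hA (scal_index A) i) ∧
      (C.rk (Ind A hA (scal_index A) i) ≠ 0 → Nontrivial X.N → Fails P C (tn X (sy A hA m))) := by
  rw [rk_Ind]
  have hz : ∀ X : Rp F 𝔊, C.rk X = 0 → Holds P C X := fun X h =>
    ⟨h, fun M _ _ _ f => (tmz_iff P f).2 h⟩
  have hn : ∀ X : Rp F 𝔊, C.rk X ≠ 0 → Fails P C X := fun X h =>
    ⟨h, fun M _ _ _ f hM => h ((tmz_iff P f).1 hM)⟩
  refine ⟨fun X hX => ⟨built_le C A hA (scal_index A) i X hX, fun h0 => hz X
    (built_zero C A hA (scal_index A) i h0 X hX)⟩, ?_⟩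
  intro j m X hX hmj hm
  have hcc : C.rk (CC A hA (scal_index A) i) = C.rk (CC A hA (scal_index A) (m + j)) := by
    refine rk_CC_congr C A hA (scal_index A) i (m + j) ?_
    intro g c hg
    have h1 := sc_pow A g c hg
    rw [← Nat.mod_add_div i (Nat.card (sc A)), ← Nat.mod_add_div (m + j) (Nat.card (sc A)),
      pow_add, pow_add, pow_mul, pow_mul, h1, one_pow, one_pow, mul_one, mul_one, hmj]
  rw [hcc]
  have hD := scal_index A
  obtain ⟨D, hDD⟩ : ∃ D, D = (scal A).index := ⟨_, rfl⟩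
  obtain ⟨n, hnn⟩ : ∃ n, n = Fintype.card κ := ⟨_, rfl⟩
  obtain ⟨r, hr⟩ : ∃ r, r = finrank F X.N := ⟨_, rfl⟩
  obtain ⟨ρ, hρ⟩ : ∃ ρ, ρ = C.rk (CC A hA (scal_index A) (m + j)) := ⟨_, rfl⟩
  obtain ⟨R, hR⟩ : ∃ R, R = C.rk (tn X (sy A hA m)) := ⟨_, rfl⟩
  have hn0 : 0 < n := hnn ▸ Fintype.card_pos
  have hD0 : 0 < D := by omega
  have hDm : D ≤ m + 1 := by omega
  -- the number of the orbits
  obtain ⟨c, hc⟩ : ∃ c, c = (n + m - D).choose (n - 1) := ⟨_, rfl⟩
  have hc1 : (n + (m + 1 - D) - 1).choose (m + 1 - D) = c := by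
    have h1 : n + (m + 1 - D) - 1 = n + m - D := by omega
    rw [h1, hc]
    have h2 : n - 1 = (n + m - D) - (m + 1 - D) := by omega
    rw [h2, Nat.choose_symm (by omega)]
  have hc0 : 0 < c := by
    rw [hc]
    exact Nat.choose_pos (by omega)
  obtain ⟨N, hN⟩ : ∃ N, N = (c + D - 1) / D := ⟨_, rfl⟩
  have hN1 : c ≤ N * D := by
    have h1 := Nat.div_add_mod (c + D - 1) D
    have h2 := Nat.mod_lt (c + D - 1) hD0
    rw [← hN] at h1
    have h3 : N * D = D * N := mul_comm _ _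
    omega
  have hN2 : (N - 1) * D < c := by
    have h1 : N * D ≤ c + D - 1 := by rw [hN]; exact Nat.div_mul_le_self _ _
    have h2 : (N - 1) * D = N * D - D := by rw [Nat.sub_mul, one_mul]
    omega
  have hb := two_bounds (t_FIN (t_GRD t_GEN)) t_DEC C A hA (scal_index A) m j X hX hm N
    (by rw [← hDD, ← hnn, hc1]; exact hN2)
  have hdim : finrank F (tn X (sy A hA m)).N = r * (n + m - 1).choose (n - 1) := by
    have h1 : finrank F (tn X (sy A hA m)).N =
        finrank F X.N * finrank F (MvPolynomial.homogeneousSubmodule κ F m) :=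
      Module.finrank_tensorProduct
    rw [h1, finrank_sym, ← hnn, ← hr]
    congr 1
    have h2 : n - 1 = (n + m - 1) - m := by omega
    rw [h2, Nat.choose_symm (by omega)]
  rw [hdim] at hb
  rw [← hρ, ← hR, ← hr, ← hDD] at hb
  obtain ⟨hb1, hb2⟩ := hb
  rw [← hρ, ← hR, ← hr, ← hDD, ← hnn, ← hc]
  have h1 : r * c * ρ ≤ D * R := by
    calc r * c * ρ ≤ r * (N * D) * ρ := by gcongr
      _ = D * (N * r * ρ) := by ring
      _ ≤ D * R := by gcongr
  refine ⟨h1, ?_, ?_⟩
  · have h2 : D * (R + N * r * D * ρ) ≤ D * (N * r * ρ + r * (n + m - 1).choose (n - 1) * ρ) := by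
      gcongr
    obtain ⟨D', rfl⟩ : ∃ D', D = D' + 1 := ⟨D - 1, by omega⟩
    have h3 : (D' + 1 - 1) = D' := rfl
    rw [h3]
    have h4 : D' * r * c * ρ ≤ D' * r * (N * (D' + 1)) * ρ := by gcongr
    nlinarith [h2, h4]
  · intro hρ0 hX0
    refine hn _ ?_
    rw [← hR]
    intro hR0
    rw [hR0, mul_zero] at h1
    have h2 : 0 < r := by
      rw [hr]
      exact Module.finrank_pos
    have h3 : 0 < r * c * ρ := by positivity
    omega

end Pool.Agent.Results.MP_519cc8_nt.SymmetricPowerGrowth
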