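import Pool.Agent.K6.H45.MU.MixMain
import Pool.Agent.K6.H45.MU.Tors

/-!
# Products of symmetric powers and the conjecture on the `μ`-invariant of Iwasawa cohomology

`F` is the residue field of `R`, `q` its cardinality, `Λ = R[[Γ]]`, `P = πΛ`, `Λ ⧸ P = F[[Γ]]`, and
`C : N ↦ H²_{Σ,Iw}(O_{L,S}, N)` is a right exact functor from the finite dimensional representations
of `𝔊 = G_{L,S}` over `F` to the finitely generated `Λ ⧸ P`-modules. `A : 𝔊 → GL_n(F)` is the
representation `T/π` of an arbitrary lattice `T`, and `r ≥ 1` (the cardinality of `ρ`).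

EITHER, for one class `j` in `(ℤ/(q-1))^r`, the conjecture is false for
`Sym^{i_1} T ⊗ ... ⊗ Sym^{i_r} T` for ALL `i_1, ..., i_r > (n - 1)(q - 1)` in this class, OR it holds
for all lattices `T'` whose reduction is a successive extension of representations `X` of the image
of `A` such that, for given nonzero vectors `w_1, ..., w_r` of `(T/π)^*`, the common stabiliser of
the `w_k` acts on `X` through elements of `p`-power order or its invariants generate `X`; and, if
`r ≥ n`, or if `n = 2` and `det A = 1`, for all lattices `T'` whose reduction is a successive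
extension of representations of the image of `A`. (Example: `T = T_p E` for an elliptic curve, `L`
containing the `p`-th roots of unity, `r = 1`: either Iwasawa's conjecture holds for `L(E[p])`, or
the conjecture is false for `Sym^i T_p E` for all `i ≥ p` in one class modulo `p - 1`.)
-/

set_option autoImplicit false

namespace Pool.Agent.Results.MP_519cc8_nt.SymmetricPowerProducts

open Module Pool.Agent.K6.H45.MU

theorem result {F : Type} [Field F] [Finite F] (p : ℕ) [Fact p.Prime] [CharP F p] {𝔊 : Type}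
    [Group 𝔊] [TopologicalSpace 𝔊] [IsTopologicalGroup 𝔊] {Λ : Type} [CommRing Λ] (P : Ideal Λ)
    [P.IsPrime] (C : Coh F 𝔊 (Λ ⧸ P)) {κ : Type} [Fintype κ] [DecidableEq κ] [Nonempty κ]
    (A : 𝔊 →* Matrix κ κ F) (hA : IsOpen {g | A g = 1}) (ρ : Type) [Fintype ρ] [DecidableEq ρ]
    [Nonempty ρ] :
    ((∀ W : ρ → κ → F, (∀ k, W k ≠ 0) → ∀ X : Rp F 𝔊, NearW A p W X → HoldsAtX P C X) ∧
      ((Fintype.card κ ≤ Fintype.card ρ ∨ (Fintype.card κ = 2 ∧ ∀ g, (A g).det = 1)) →
        ∀ X : Rp F 𝔊, Over A X → HoldsAtX P C X)) ∨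
    ∃ j : ρ → ℕ, (∀ k, j k < Nat.card F - 1) ∧ ∀ i : ρ → ℕ,
      (∀ k, (Fintype.card κ - 1) * (Nat.card F - 1) < i k ∧ i k % (Nat.card F - 1) = j k) →
        FailsAtX P C (Mx A hA i) := by
  have := Fintype.ofFinite F
  have hz : ∀ X : Rp F 𝔊, C.rk X = 0 → HoldsAtX P C X := fun X h =>
    ⟨h, fun M _ _ _ f => (tmz_iff P f).2 h⟩
  have hn : ∀ X : Rp F 𝔊, C.rk X ≠ 0 → FailsAtX P C X := fun X h =>
    ⟨h, fun M _ _ _ f hM => h ((tmz_iff P f).1 hM)⟩
  rw [Nat.card_eq_fintype_card]
  rcases mix_dichotomy C A hA p ρ with h | ⟨j, hj, h⟩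
  · left
    refine ⟨fun W hW X hX => hz X (h W hW X hX), fun hκ X hX => ?_⟩
    obtain ⟨W, hW1, hW2⟩ := exists_W (ρ := ρ) p A hκ
    exact hz X (h W hW1 X (over_nearW p A W hW2 X hX))
  · right
    exact ⟨j, hj, fun i hi => hn _ (h i hi)⟩

end Pool.Agent.Results.MP_519cc8_nt.SymmetricPowerProducts
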