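import Pool.Agent.K6.H87.SP.Ten2
import Pool.Agent.K6.H87.SP.TCC
import Pool.Agent.K6.H87.SP.SPL
import Pool.Agent.K6.H87.SP.PWT
import Pool.Agent.K6.H87.SP.TPS
import Pool.Agent.K6.H87.SP.TPI
import Pool.Agent.K6.H87.SP.Ind
import Pool.Agent.K6.H45.MU.Tors

/-!
# The rank of the Iwasawa cohomology of high tensor powers

`F` is the residue field of `R`, `Λ = R[[Γ]]`, `P = πΛ`, `Λ ⧸ P = F[[Γ]]`, and
`C : N ↦ H²_{Σ,Iw}(O_{L,S}, N)` is a right exact functor from the finite dimensional representations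
of `𝔊 = G_{L,S}` over `F` to the finitely generated `Λ ⧸ P`-modules. `A : 𝔊 → GL_n(F)` is the
representation `T/π`, `S` the subgroup of the elements which act as scalars, `D` its index, and `e`
the number of the scalars in the image of `A`; `I_i = Ind A _ _ i` is the representation of `𝔊`
induced from the character of `S`, the `i`-th power of the scalar, and `ρ_i` the rank of the value
of `C` at `I_i`.

For all `s ≥ D - 1`, all `t`, `k`, and all representations `X` on which the elements which act as the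
scalar `c` on `T/π` act as the scalar `c^j`, the rank `r` of the value at `X ⊗ T^{⊗(t + sk)}`, where
`j + t + s k ≡ i mod e`, satisfies
`dim X ⬝ n^t (n^(2sk) - (n^(2s) - D)^k) ⬝ ρ_i ≤ D n^(sk) r ≤
  dim X ⬝ n^t (n^(2sk) + (D - 1) (n^(2s) - D)^k) ⬝ ρ_i`.
So `r = (ρ_i / D) dim (X ⊗ T^{⊗m}) (1 + O(θ^m))`, `m = t + s k`, with `θ < 1`. If `ρ_i = 0`, the
conjecture holds for all lattices with the reduction `X ⊗ T^{⊗m}`; if `ρ_i ≠ 0` and `X ≠ 0`, it is
false for all of them, if `m ≥ s`.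
-/

set_option autoImplicit false

namespace Pool.Agent.Results.MP_519cc8_nt.TensorPowerAsymptotics

open Module Pool.Agent.K6.H45.MU Pool.Agent.K6.H87.SP

/-- The conjecture holds for the reduction `X`: the value at `X` has rank zero, and every finitely
generated `Λ`-module with the reduction `C.H X` is torsion with `μ = 0`. -/
def Holds {F : Type} [Field F] {𝔊 : Type} [Group 𝔊] [TopologicalSpace 𝔊] {Λ : Type} [CommRing Λ]
    (P : Ideal Λ) (C : Coh F 𝔊 (Λ ⧸ P)) (X : Rp F 𝔊) : Prop :=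
  C.rk X = 0 ∧ ∀ (M : Type) [AddCommGroup M] [Module Λ M] [Module.Finite Λ M],
    ((M ⧸ (P • ⊤ : Submodule Λ M)) ≃ₗ[Λ ⧸ P] C.H X) → TorsionMuZero P M

/-- The conjecture fails for the reduction `X`: the value at `X` has positive rank, and no finitely
generated `Λ`-module with the reduction `C.H X` is torsion with `μ = 0`. -/
def Fails {F : Type} [Field F] {𝔊 : Type} [Group 𝔊] [TopologicalSpace 𝔊] {Λ : Type} [CommRing Λ]
    (P : Ideal Λ) (C : Coh F 𝔊 (Λ ⧸ P)) (X : Rp F 𝔊) : Prop :=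
  C.rk X ≠ 0 ∧ ∀ (M : Type) [AddCommGroup M] [Module Λ M] [Module.Finite Λ M],
    ((M ⧸ (P • ⊤ : Submodule Λ M)) ≃ₗ[Λ ⧸ P] C.H X) → ¬ TorsionMuZero P M

theorem result {F : Type} [Field F] [Finite F] {𝔊 : Type} [Group 𝔊] [TopologicalSpace 𝔊]
    [IsTopologicalGroup 𝔊] {Λ : Type} [CommRing Λ] (P : Ideal Λ) [P.IsPrime]
    (C : Coh F 𝔊 (Λ ⧸ P)) {κ : Type} [Fintype κ] [DecidableEq κ] [Nonempty κ]
    (A : 𝔊 →* Matrix κ κ F) (hA : IsOpen {g | A g = 1}) (i j s t k : ℕ)
    (hs : (scal A).index ≤ s + 1)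
    (hi : (j + (t + s * k)) % Nat.card (sc A) = i % Nat.card (sc A))
    (X : Rp F 𝔊) (hX : Pu A j X) :
    finrank F X.N * Fintype.card κ ^ t * Fintype.card κ ^ (2 * s * k) *
        C.rk (Ind A hA (scal_index A) i) ≤
      (scal A).index * Fintype.card κ ^ (s * k) * C.rk (tn X (tp A hA (Fin (t + s * k)))) +
        finrank F X.N * Fintype.card κ ^ t *
          (Fintype.card κ ^ (2 * s) - (scal A).index) ^ k * C.rk (Ind A hA (scal_index A) i) ∧
    (scal A).index * Fintype.card κ ^ (s * k) * C.rk (tn X (tp A hA (Fin (t + s * k)))) ≤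
      finrank F X.N * Fintype.card κ ^ t * (Fintype.card κ ^ (2 * s * k) +
        ((scal A).index - 1) * (Fintype.card κ ^ (2 * s) - (scal A).index) ^ k) *
          C.rk (Ind A hA (scal_index A) i) ∧
    (C.rk (Ind A hA (scal_index A) i) = 0 → Holds P C (tn X (tp A hA (Fin (t + s * k))))) ∧
    (C.rk (Ind A hA (scal_index A) i) ≠ 0 → Nontrivial X.N → k ≠ 0 →
      Fails P C (tn X (tp A hA (Fin (t + s * k))))) := by
  rw [rk_Ind, ← (it_tp t_TPI A hA X t s k).rk C]
  have hz : ∀ X : Rp F 𝔊, C.rk X = 0 → Holds P C X := fun X h =>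
    ⟨h, fun M _ _ _ f => (tmz_iff P f).2 h⟩
  have hn : ∀ X : Rp F 𝔊, C.rk X ≠ 0 → Fails P C X := fun X h =>
    ⟨h, fun M _ _ _ f hM => h ((tmz_iff P f).1 hM)⟩
  have hcc : C.rk (CC A hA (scal_index A) i) =
      C.rk (CC A hA (scal_index A) (j + t + s * k)) := by
    refine rk_CC_congr C A hA (scal_index A) i (j + t + s * k) ?_
    intro g c hg
    have h1 := sc_pow A g c hg
    rw [add_assoc, ← Nat.mod_add_div i (Nat.card (sc A)),
      ← Nat.mod_add_div (j + (t + s * k)) (Nat.card (sc A)),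
      pow_add, pow_add, pow_mul, pow_mul, h1, one_pow, one_pow, mul_one, mul_one, hi]
  rw [hcc]
  obtain ⟨f, hf⟩ := t_TPS F 𝔊 κ A hA (scal_index A) s hs
  obtain ⟨v, hv, hb⟩ := rec_bounds t_TCC t_SPL t_PWT C A hA (scal_index A) s (tp A hA (Fin s))
    (pu_tp A hA s) (Fin s → κ) f hf
  obtain ⟨h1, h2⟩ := hb k (j + t) (tn X (tp A hA (Fin t))) (pu_tn hX (pu_tp A hA t))
  have hc : Fintype.card (Fin s → κ) = Fintype.card κ ^ s := by
    rw [Fintype.card_fun, Fintype.card_fin]
  have hu : Fintype.card κ ^ s * Fintype.card κ ^ s = Fintype.card κ ^ (2 * s) := by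
    rw [← pow_add]
    congr 1
    ring
  rw [dim_tp, hc, hu] at hv
  rw [dim_tn, dim_tp, dim_tp, hc, hu] at h1 h2
  have hv' : v = Fintype.card κ ^ (2 * s) - (scal A).index := by omega
  rw [← pow_mul, ← pow_mul] at h1 h2
  rw [← hv']
  have hD := scal_index A
  have hD0 : 0 < (scal A).index := Nat.pos_of_ne_zero hD
  refine ⟨h1, h2, fun h0 => hz _ ?_, fun h0 hX0 hk => hn _ ?_⟩
  · rw [← (it_tp t_TPI A hA X t s k).rk C]
    rw [h0, mul_zero, Nat.le_zero] at h2
    have h3 : 0 < (scal A).index * Fintype.card κ ^ (s * k) :=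
      Nat.mul_pos hD0 (pow_pos Fintype.card_pos _)
    rcases Nat.mul_eq_zero.1 h2 with h4 | h4
    · omega
    · exact h4
  · rw [← (it_tp t_TPI A hA X t s k).rk C]
    intro h3
    rw [h3, mul_zero, zero_add] at h1
    have h4 : 0 < finrank F X.N * Fintype.card κ ^ t :=
      Nat.mul_pos Module.finrank_pos (pow_pos Fintype.card_pos _)
    have h5 : v ^ k < Fintype.card κ ^ (2 * s * k) := by
      rw [pow_mul]
      exact Nat.pow_lt_pow_left (by omega) hk
    have h7 : 0 < C.rk (CC A hA (scal_index A) (j + t + s * k)) := Nat.pos_of_ne_zero h0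
    have h8 : finrank F X.N * Fintype.card κ ^ t * v ^ k <
        finrank F X.N * Fintype.card κ ^ t * Fintype.card κ ^ (2 * s * k) :=
      Nat.mul_lt_mul_of_pos_left h5 h4
    have h6 := Nat.mul_lt_mul_of_pos_right h8 h7
    omega

end Pool.Agent.Results.MP_519cc8_nt.TensorPowerAsymptotics
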