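import Pool.Agent.K6.H45.MU.Over
import Pool.Agent.K6.H45.MU.Tors

/-!
# Tensor powers and the conjecture on the `μ`-invariant of Iwasawa cohomology

`F` is the residue field of `R`, `q` its cardinality, `Λ = R[[Γ]]`, `P = πΛ`, `Λ ⧸ P = F[[Γ]]`, and
`C : N ↦ H²_{Σ,Iw}(O_{L,S}, N)` is a right exact functor from the finite dimensional representations
of `𝔊 = G_{L,S}` over `F` to the finitely generated `Λ ⧸ P`-modules. `A : 𝔊 → GL_n(F)` is the
representation `T/π`, `D` the index of the scalars in the image of `A`, and `e` their number;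
`s = min (D - 1, (n² - 1)(q - 1) + 1)`.

For every residue class `i` modulo `e`, EITHER `H²_{Σ,Iw}(O_{L,S}, T')` is torsion with `μ = 0` for
EVERY lattice `T'`, whose reduction is a successive extension of representations on which the
elements acting as the scalar `c` on `T/π` act as the scalar `c^i`, OR the conjecture is false for
`T^{⊗m}` for ALL `m ≥ s` in this class, and the rank of `H²_{Σ,Iw}(O_{L,S}, T^{⊗m})/π` over
`F[[Γ]]` is at least `n^(m-2s)`. If the first alternative holds for all classes, then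
`H²_{Σ,Iw}(O_{L,S}, T')` is torsion with `μ = 0` for all `T'` whose reduction is a successive
extension of representations on which the kernel of `A` acts trivially.
-/

set_option autoImplicit false

namespace Pool.Agent.Results.MP_519cc8_nt.TensorPowerDichotomy

open Module Pool.Agent.K6.H45.MU

/-- the bound `min (D - 1, (n² - 1)(q - 1) + 1)` -/
noncomputable def bound {F : Type} [Field F] {𝔊 : Type} [Group 𝔊] {κ : Type} [Fintype κ]
    [DecidableEq κ] (A : 𝔊 →* Matrix κ κ F) : ℕ :=
  min ((scal A).index - 1) ((Fintype.card κ ^ 2 - 1) * (Nat.card F - 1) + 1)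

/-- The conjecture holds for the reduction `X`: the value at `X` has rank zero, and every finitely
generated `Λ`-module with the reduction `C.H X` is torsion with `μ = 0`. -/
def Holds {F : Type} [Field F] {𝔊 : Type} [Group 𝔊] [TopologicalSpace 𝔊] {Λ : Type} [CommRing Λ]
    (P : Ideal Λ) (C : Coh F 𝔊 (Λ ⧸ P)) (X : Rp F 𝔊) : Prop :=
  C.rk X = 0 ∧ ∀ (M : Type) [AddCommGroup M] [Module Λ M] [Module.Finite Λ M],
    ((M ⧸ (P • ⊤ : Submodule Λ M)) ≃ₗ[Λ ⧸ P] C.H X) → TorsionMuZero P M

/-- The conjecture fails for the reduction `X`: no finitely generated `Λ`-module with the reduction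
`C.H X` is torsion with `μ = 0`. -/
def Fails {F : Type} [Field F] {𝔊 : Type} [Group 𝔊] [TopologicalSpace 𝔊] {Λ : Type} [CommRing Λ]
    (P : Ideal Λ) (C : Coh F 𝔊 (Λ ⧸ P)) (X : Rp F 𝔊) : Prop :=
  C.rk X ≠ 0 ∧ ∀ (M : Type) [AddCommGroup M] [Module Λ M] [Module.Finite Λ M],
    ((M ⧸ (P • ⊤ : Submodule Λ M)) ≃ₗ[Λ ⧸ P] C.H X) → ¬ TorsionMuZero P M

theorem result {F : Type} [Field F] [Finite F] {𝔊 : Type} [Group 𝔊] [TopologicalSpace 𝔊]
    [IsTopologicalGroup 𝔊] {Λ : Type} [CommRing Λ] (P : Ideal Λ) [P.IsPrime]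
    (C : Coh F 𝔊 (Λ ⧸ P)) {κ : Type} [Fintype κ] [DecidableEq κ] [Nonempty κ]
    (A : 𝔊 →* Matrix κ κ F) (hA : IsOpen {g | A g = 1}) :
    (∀ i : ℕ, (∀ X : Rp F 𝔊, Built A i X → Holds P C X) ∨
      ∀ m, bound A ≤ m → m % Nat.card (sc A) = i % Nat.card (sc A) →
        Fails P C (tp A hA (Fin m)) ∧
        Fintype.card κ ^ (m - bound A) ≤ Fintype.card κ ^ bound A * C.rk (tp A hA (Fin m))) ∧
    ((∀ i < Nat.card (sc A), ∀ X : Rp F 𝔊, Built A i X → Holds P C X) →
      ∀ X : Rp F 𝔊, Over A X → Holds P C X) := by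
  have hs : Cover A (bound A) := by
    unfold bound
    rcases min_choice ((scal A).index - 1) ((Fintype.card κ ^ 2 - 1) * (Nat.card F - 1) + 1)
      with h | h <;> rw [h]
    · exact cover_index A (scal_index A)
    · exact cover_field A
  have hz : ∀ X : Rp F 𝔊, C.rk X = 0 → Holds P C X := fun X h =>
    ⟨h, fun M _ _ _ f => (tmz_iff P f).2 h⟩
  have hn : ∀ X : Rp F 𝔊, C.rk X ≠ 0 → Fails P C X := fun X h =>
    ⟨h, fun M _ _ _ f hM => h ((tmz_iff P f).1 hM)⟩
  constructor
  · intro i
    rcases class_dichotomy C A hA (scal_index A) (ker_index A) (Nat.card (sc A)) (sc_pow A)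
      (bound A) hs i with h | h
    · exact Or.inl fun X hX => hz X (h X hX)
    · right
      intro m hm hmi
      have h1 := h m hm hmi
      refine ⟨hn _ fun h2 => ?_, h1⟩
      rw [h2, mul_zero] at h1
      have h3 : 0 < Fintype.card κ ^ (m - bound A) := pow_pos Fintype.card_pos _
      omega
  · intro h X hX
    exact hz X (over_of_classes C A hA (scal_index A) (ker_index A) (Nat.card (sc A)) (sc_card A)
      (sc_pow A) (fun i hi X hX => (h i hi X hX).1) X hX)

end Pool.Agent.Results.MP_519cc8_nt.TensorPowerDichotomy
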